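import Pool.Agent.H16.PgMinus

set_option autoImplicit false

namespace Pool.Agent.Results.MP_1f7bca_co.DegreeEight
open Finset MvPolynomial
open scoped Matroid
open Pool.Agent.H16.PgMinus Pool.Agent.H16.Fiber

/-- M is binary: its independent sets are the linearly independent sets of a family of vectors
over the field with two elements. -/
def IsBinary {α : Type} (M : Matroid α) : Prop :=
  ∃ (r : ℕ) (w : α → Fin r → ZMod 2), ∀ I, M.Indep I ↔ I ⊆ M.E ∧ LinearIndepOn (ZMod 2) w I

/-- M is connected: nonempty, and any two elements lie in a common circuit. -/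
def IsConn {α : Type} (M : Matroid α) : Prop :=
  M.E.Nonempty ∧ ∀ e ∈ M.E, ∀ f ∈ M.E, e ≠ f → ∃ C, M.IsCircuit C ∧ e ∈ C ∧ f ∈ C

/-- A cycle: a (possibly empty) disjoint union of circuits. -/
def IsCycle {α : Type} (M : Matroid α) (D : Set α) : Prop :=
  ∃ 𝒞 : Set (Set α), (∀ C ∈ 𝒞, M.IsCircuit C) ∧ 𝒞.PairwiseDisjoint id ∧ D = ⋃₀ 𝒞

/-- One deletion, series contraction or coloop contraction. -/
def Step {α : Type} (N N' : Matroid α) : Prop :=
  (∃ e ∈ N.E, N' = N.delete {e}) ∨
  (∃ e f, e ≠ f ∧ N.IsCocircuit {e, f} ∧ N' = N.contract {e}) ∨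
  (∃ e, N.IsColoop e ∧ N' = N.contract {e})

/-- K is the cycle matroid of the complete graph on five vertices. -/
def IsMK5 (K : Matroid (Sym2 (Fin 5))) : Prop :=
  K.E = (⊤ : SimpleGraph (Fin 5)).edgeSet ∧
    ∀ I, K.Indep I ↔ I ⊆ K.E ∧ (SimpleGraph.fromEdgeSet I).IsAcyclic

/-- The map whose kernel is the cycle ideal: x_D goes to s times the product of t_e, e in D. -/
noncomputable def cycleMap (K : Type) [Field K] {α : Type} (M : Matroid α) :
    MvPolynomial {D : Finset α // IsCycle M D} K →ₐ[K] MvPolynomial (Option α) K :=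
  MvPolynomial.aeval (fun D => (∏ e ∈ D.1, MvPolynomial.X (some e)) * MvPolynomial.X none)

theorem cyc_iff (X : Set (Fin 14)) : IsCycle M0 X ↔ ∃ D : Fin 16, X = cw D := by
  constructor
  · rintro ⟨𝒞, h1, h2, rfl⟩
    rcases 𝒞.eq_empty_or_nonempty with rfl | ⟨C, hC⟩
    · exact ⟨0, by simp [cw]⟩
    · obtain ⟨D, hD, rfl⟩ := (circ_iff C).1 (h1 C hC)
      refine ⟨D, Set.Subset.antisymm (Set.sUnion_subset fun C' hC' => ?_) (Set.subset_sUnion_of_mem hC)⟩
      obtain ⟨D', hD', rfl⟩ := (circ_iff C').1 (h1 C' hC')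
      by_contra hn
      have := h2 hC' hC (fun e => hn e.subset)
      exact cw_meet D' D hD' hD (disjoint_coe.1 this)
  · rintro ⟨D, rfl⟩
    by_cases h : D = 0
    · exact ⟨∅, by simp, by simp, by simp [h, cw]⟩
    · exact ⟨{(cw D : Set _)}, by simpa using (circ_iff _).2 ⟨D, h, rfl⟩, by simp, by simp⟩

abbrev Cyc : Type := {D : Finset (Fin 14) // IsCycle M0 D}

def cy (D : Fin 16) : Cyc := ⟨cw D, (cyc_iff _).2 ⟨D, rfl⟩⟩

theorem cy_surj (X : Cyc) : ∃ D, X = cy D := by
  obtain ⟨D, h⟩ := (cyc_iff _).1 X.2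
  exact ⟨D, Subtype.ext (by exact_mod_cast h)⟩

theorem cy_eq (a b : Fin 16) : cy a = cy b ↔ a = b :=
  ⟨fun h => cw_inj a b (congrArg Subtype.val h), fun h => h ▸ rfl⟩

noncomputable def wt (X : Cyc) : Option (Fin 14) →₀ ℕ :=
  (∑ e ∈ X.1, Finsupp.single (some e) 1) + Finsupp.single none 1

theorem wt_some (X : Cyc) (e : Fin 14) : wt X (some e) = if e ∈ X.1 then 1 else 0 := by
  simp [wt, Finsupp.single_apply]

theorem wt_none (X : Cyc) : wt X none = 1 := by
  simp [wt]

noncomputable def mm (s : Finset (Fin 16)) : Cyc →₀ ℕ := ∑ D ∈ s, Finsupp.single (cy D) 1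

theorem W_mm (s : Finset (Fin 16)) (x : Option (Fin 14)) : W wt (mm s) x = ∑ D ∈ s, wt (cy D) x := by
  simp [mm, W_sum, W_single, Finsupp.finsetSum_apply]

theorem mm_supp (s : Finset (Fin 16)) (D : Fin 16) : cy D ∈ (mm s).support ↔ D ∈ s := by
  classical
  simp [mm, Finsupp.finsetSum_apply, Finsupp.single_apply, cy_eq]

def sE : Finset (Fin 16) := {0, 3, 5, 6, 9, 10, 12, 15}
def sO : Finset (Fin 16) := {1, 2, 4, 7, 8, 11, 13, 14}

theorem E_none : W wt (mm sE) none = 8 := by
  rw [W_mm]; simp only [wt_none]; decide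
theorem O_none : W wt (mm sO) none = 8 := by
  rw [W_mm]; simp only [wt_none]; decide
theorem E_some (e : Fin 14) : W wt (mm sE) (some e) = 4 := by
  rw [W_mm]; simp only [wt_some, cy]; revert e; decide +kernel
theorem O_some (e : Fin 14) : W wt (mm sO) (some e) = 4 := by
  rw [W_mm]; simp only [wt_some, cy]; revert e; decide +kernel

theorem closed (m : Cyc →₀ ℕ) (h : W wt m = W wt (mm sE)) (X : Cyc) (hX : X ∈ m.support)
    (g : X.1.card ≠ 7) (Y : Cyc) (hY : Y ∈ m.support) : Y.1.card ≠ 7 := by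
  classical
  intro gY
  obtain ⟨a, rfl⟩ := cy_surj X
  obtain ⟨b, rfl⟩ := cy_surj Y
  have hn : ∑ Z ∈ m.support, (m Z : ℤ) = 8 := by
    have := E_none
    rw [← h, W_apply] at this
    simp only [wt_none, mul_one] at this
    exact_mod_cast this
  have he : ∀ e : Fin 14, ∑ Z ∈ m.support, (m Z : ℤ) * (1 - 2 * (if e ∈ Z.1 then 1 else 0)) = 0 := by
    intro e
    have := E_some e
    rw [← h, W_apply] at this
    simp only [wt_some] at this
    have h2 : ∑ Z ∈ m.support, (m Z : ℤ) * (if e ∈ Z.1 then 1 else 0) = 4 := by exact_mod_cast this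
    have h3 : ∑ Z ∈ m.support, (m Z : ℤ) * (1 - 2 * (if e ∈ Z.1 then 1 else 0)) =
        ∑ Z ∈ m.support, (m Z : ℤ) - 2 * ∑ Z ∈ m.support, (m Z : ℤ) * (if e ∈ Z.1 then 1 else 0) := by
      rw [mul_sum, ← sum_sub_distrib]
      exact sum_congr rfl fun Z _ => by ring
    rw [h3, hn, h2]
    norm_num
  have key : ∑ Z ∈ m.support, (m Z : ℤ) *
      (16 * ((if Z = cy a then 1 else 0) + (if Z = cy b then 1 else 0))) = 16 := by
    have : ∀ Z ∈ m.support, (m Z : ℤ) *
        (16 * ((if Z = cy a then 1 else 0) + (if Z = cy b then 1 else 0))) =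
        2 * (m Z : ℤ) + ∑ e : Fin 14,
          (2 - 2 * (if e ∈ cw a then 1 else 0) - 2 * (if e ∈ cw b then 1 else 0)) *
            ((m Z : ℤ) * (1 - 2 * (if e ∈ Z.1 then 1 else 0))) := by
      intro Z _
      obtain ⟨d, rfl⟩ := cy_surj Z
      have := fourier a b d g gY
      simp only [cy_eq]
      rw [this, mul_add, mul_sum, mul_comm]
      congr 1
      exact sum_congr rfl fun e _ => by simp only [cy]; ring_nf
    rw [sum_congr rfl this, sum_add_distrib, ← mul_sum, hn, sum_comm]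
    simp only [← mul_sum, he]
    simp
  simp only [mul_add, mul_ite, mul_one, mul_zero, sum_add_distrib, sum_ite_eq', hX, hY, if_true] at key
  have p1 := Nat.pos_of_ne_zero (Finsupp.mem_support_iff.1 hX)
  have p2 := Nat.pos_of_ne_zero (Finsupp.mem_support_iff.1 hY)
  omega

theorem no_minor (K : Matroid (Sym2 (Fin 5))) (hK : IsMK5 K) (N : Matroid (Fin 14))
    (hN : Relation.ReflTransGen Step M0 N) (φ : Fin 14 → Sym2 (Fin 5)) (hφ : Set.InjOn φ N.E) :
    N.map φ hφ ≠ K.dual := by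
  have inv : N = M0 ∨ ∀ I, N✶.Indep I → I.ncard ≤ 3 := by
    clear hφ
    induction hN with
    | refl => exact Or.inl rfl
    | tail _ hs ih =>
      right
      rcases ih with rfl | ih
      · rcases hs with ⟨e, -, rfl⟩ | ⟨e, f, -, h, -⟩ | ⟨e, h, -⟩
        · exact del_le e
        · exact (no_small e f _ h (Or.inl rfl) subset_rfl).elim
        · exact (no_small e e _ h.isCocircuit rfl (by simp)).elim
      · rcases hs with ⟨e, -, rfl⟩ | ⟨e, f, -, -, rfl⟩ | ⟨e, -, rfl⟩
        · intro I hI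
          rw [Matroid.dual_delete] at hI
          exact ih I hI.of_contract
        · intro I hI
          rw [Matroid.dual_contract] at hI
          exact ih I hI.of_delete
        · intro I hI
          rw [Matroid.dual_contract] at hI
          exact ih I hI.of_delete
  intro h
  rcases inv with rfl | inv
  · have h1 : φ '' M0.E = K.E := by rw [← Matroid.dual_ground (M := K), ← h]; rfl
    have h2 := Set.InjOn.ncard_image hφ
    rw [h1, hK.1, M0_E, Set.ncard_univ, Nat.card_eq_fintype_card, Fintype.card_fin,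
      ← SimpleGraph.coe_edgeFinset, Set.ncard_coe_finset,
      SimpleGraph.card_edgeFinset_top_eq_card_choose_two] at h2
    exact absurd h2 (by decide)
  · have h1 : K = N✶.map φ hφ := by rw [← Matroid.map_dual, h, Matroid.dual_dual]
    have hT : K.Indep (SimpleGraph.starGraph (0 : Fin 5)).edgeSet := by
      rw [hK.2, hK.1, SimpleGraph.fromEdgeSet_edgeSet]
      exact ⟨SimpleGraph.edgeSet_mono le_top, SimpleGraph.isAcyclic_starGraph 0⟩
    rw [h1, Matroid.map_indep_iff] at hT
    obtain ⟨I, hI, e⟩ := hT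
    have h3 := inv I hI
    have h4 := Set.ncard_image_le (s := I) (f := φ) (Set.toFinite _)
    have h5 : (({s(0, 1), s(0, 2), s(0, 3), s(0, 4)} : Finset (Sym2 (Fin 5))) : Set _) ⊆
        (SimpleGraph.starGraph (0 : Fin 5)).edgeSet := by
      intro x hx
      simp only [coe_insert, coe_singleton, Set.mem_insert_iff, Set.mem_singleton_iff] at hx
      rcases hx with rfl | rfl | rfl | rfl <;> simp
    have h6 := Set.ncard_le_ncard h5 (Set.toFinite _)
    rw [Set.ncard_coe_finset, e] at h6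
    have h7 : ({s(0, 1), s(0, 2), s(0, 3), s(0, 4)} : Finset (Sym2 (Fin 5))).card = 4 := by decide
    omega

theorem result : ∃ (n : ℕ) (M : Matroid (Fin n)), M.E = Set.univ ∧ IsBinary M ∧ IsConn M ∧
    (∀ C, M.IsCircuit C → 3 ≤ C.ncard) ∧ (∀ C, M.IsCocircuit C → 3 ≤ C.ncard) ∧
    (∀ K5 : Matroid (Sym2 (Fin 5)), IsMK5 K5 → ∀ N, Relation.ReflTransGen Step M N →
      ∀ (φ : Fin n → Sym2 (Fin 5)) (hφ : Set.InjOn φ N.E), N.map φ hφ ≠ K5.dual) ∧
    ∀ (K : Type) [Field K] (S : Set (MvPolynomial {D : Finset (Fin n) // IsCycle M D} K)),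
      Ideal.span S = RingHom.ker (cycleMap K M) → ∃ f ∈ S, 8 ≤ f.totalDegree := by
  refine ⟨14, M0, M0_E, ⟨10, v, fun I => ?_⟩, ⟨by simp [M0_E], fun e _ f _ _ => ?_⟩, fun C hC => ?_,
    cosimple, no_minor, fun K _ S hS => ?_⟩
  · rw [M0_E, M0, Pool.Agent.S09362Aux.vm_indep]
    simp
  · obtain ⟨D, hD, h1, h2⟩ := cw_both e f
    exact ⟨cw D, (circ_iff _).2 ⟨D, hD, rfl⟩, h1, h2⟩
  · obtain ⟨D, hD, rfl⟩ := (circ_iff C).1 hC
    rw [Set.ncard_coe_finset]
    exact cw_card D hD
  · have h : (fun X : Cyc => (∏ e ∈ X.1, (MvPolynomial.X (some e) : MvPolynomial (Option (Fin 14)) K)) *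
        MvPolynomial.X none) = fun X => monomial (wt X) 1 := by
      funext X
      rw [wt, monomial_add_single, pow_one, monomial_sum_one]
      rfl
    rw [cycleMap, h] at hS
    refine gen_degree wt none wt_none (fun X => X.1.card ≠ 7) (mm sE) (mm sO) 8 E_none ?_ ?_
      ⟨cy 1, (mm_supp _ _).2 (by decide), by decide⟩ closed S hS
    · ext x
      cases x with
      | none => rw [E_none, O_none]
      | some e => rw [E_some, O_some]
    · intro X hX
      obtain ⟨D, rfl⟩ := cy_surj X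
      rw [mm_supp] at hX
      revert D
      decide +kernel

end Pool.Agent.Results.MP_1f7bca_co.DegreeEight
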